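import Pool.Agent.MP_d23910_co.S7.D.Yx0

/-! Kernel checks of one certificate. -/

set_option autoImplicit false

namespace Pool.Agent.MP_d23910_co.S7.Yx0

theorem hv : chkV dat = true := by decide +kernel
theorem he : chkE dat [c0, c1, c2, c3, c4, c5, c6] = true := by decide +kernel

end Pool.Agent.MP_d23910_co.S7.Yx0
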