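import Pool.Agent.MP_d23910_co.S7.D.Vx0

/-! Kernel checks of one certificate. -/

set_option autoImplicit false

namespace Pool.Agent.MP_d23910_co.S7.Vx0

theorem h0 : chkC dat c0 = true := by decide +kernel
theorem h1 : chkC dat c1 = true := by decide +kernel
theorem h2 : chkC dat c2 = true := by decide +kernel
theorem h3 : chkC dat c3 = true := by decide +kernel
theorem h4 : chkC dat c4 = true := by decide +kernel
theorem h5 : chkC dat c5 = true := by decide +kernel
theorem h6 : chkC dat c6 = true := by decide +kernel

end Pool.Agent.MP_d23910_co.S7.Vx0
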